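import Pool.Agent.NH76.TT.Chain
import Pool.Agent.W254.HP.Rel

/-!
# Counting the linear forms in logarithms in a recurrence
-/

set_option autoImplicit false

namespace Pool.Agent.NH76.TT

open Finset Polynomial Module
open Pool.Agent.H301R2.SSE (Lt Lt_log)
open Pool.Agent.W254.PA (Hyp)

theorem hyp_lt : Hyp (k := QQ) Lt := by
  intro d l x a hx ha hxa hcol
  simpa using Pool.Agent.W254.HP.hyperplane' (κ := Fin l) d x a hx ha hxa hcol

theorem deg_pos {q : ℂ[X]} (hq : q ≠ 0) {F : ℕ → ℂ} (hF : F ∈ Rec q) (hF0 : F ≠ 0) :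
    1 ≤ q.natDegree := by
  by_contra h
  exact hF0 (eq_zero_of_init hq hF (fun i hi => by omega))

theorem tr_bound {q : ℂ[X]} (hq : q ≠ 0) (ht : TrR q) (hnd : NonDeg q) {F : ℕ → ℂ}
    (hF : F ∈ Rec q) (hF0 : F ≠ 0) (A0 : Finset ℕ) (hA0 : ∀ s ∈ A0, F s ∈ Lt) (L : List ℕ)
    (hlen : L.length = 2 * q.natDegree - 1) (hL : ∀ d ∈ L, 0 < d) :
    (tr A0 L).card ≤ 8 ^ (2 * q.natDegree - 1) := by
  classical
  have hqz : NeZero q := ⟨hq⟩
  have hdeg := deg_pos hq hF hF0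
  have hA : AA q L = ⊥ := by
    have h1 := A_bot ht hnd hF hF0 (L.take q.natDegree) (L.drop q.natDegree)
      (fun d hd => hL d (List.mem_of_mem_take hd)) (fun d hd => hL d (List.mem_of_mem_drop hd))
      (by rw [List.length_drop]; omega) (by rw [List.length_take]; omega)
    rwa [List.take_append_drop] at h1
  have hK := K_bot ht.eval_zero hnd hF hF0 L hL (by omega)
  let res : (ℕ → ℂ) →ₗ[ℂ] (cube L → ℂ) := LinearMap.funLeft ℂ ℂ (fun i : cube L => (i : ℕ))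
  have key := Pool.Agent.TH160.TowP.rank_bound hyp_lt (I := cube L) (S := tr A0 L)
    ((Rec q).map res) ?_ (fun s i => F ((s : ℕ) + (i : ℕ))) ?_ ?_ ?_
  · rw [Fintype.card_coe, Fintype.card_coe] at key
    refine key.trans ?_
    calc (cube L).card ^ 3 ≤ (2 ^ L.length) ^ 3 := Nat.pow_le_pow_left (card_cube L) 3
      _ = 8 ^ (2 * q.natDegree - 1) := by
          rw [hlen, ← pow_mul, mul_comm, pow_mul]
          norm_num
  · rintro f hf hfa
    obtain ⟨g, hg, rfl⟩ := Submodule.mem_map.1 hf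
    have h1 : g ∈ AA q L := ⟨hg, fun i hi => hfa ⟨i, hi⟩⟩
    rw [hA, Submodule.mem_bot] at h1
    rw [h1, map_zero]
  · intro s i
    exact hA0 _ ((mem_tr.1 s.2) i i.2)
  · intro s
    refine Submodule.mem_map.2 ⟨(E ^ (s : ℕ)) F, E_pow_mem hF _, ?_⟩
    funext i
    change (E ^ (s : ℕ)) F (i : ℕ) = F ((s : ℕ) + (i : ℕ))
    rw [E_pow, add_comm]
  · rw [Fintype.linearIndependent_iff]
    intro c hc s0
    by_contra hs0
    refine hF0 ?_
    -- the combination of the translates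
    set G : ℕ → ℂ := fun n => ∑ s : tr A0 L, (c s : ℂ) * F (n + (s : ℕ)) with hG
    have hGR : G ∈ Rec q := by
      have h1 : G = ∑ s : tr A0 L, (c s : ℂ) • (E ^ (s : ℕ)) F := by
        funext n
        rw [Finset.sum_apply]
        refine Finset.sum_congr rfl fun s _ => ?_
        rw [Pi.smul_apply, E_pow, smul_eq_mul]
      rw [h1]
      exact Submodule.sum_mem _ fun s _ => Submodule.smul_mem _ _ (E_pow_mem hF _)
    have hG0 : G = 0 := by
      have h1 : G ∈ K q L := by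
        refine ⟨hGR, fun i hi => ?_⟩
        have h2 := congrFun hc ⟨i, hi⟩
        rw [Finset.sum_apply] at h2
        have h3 : (0 : cube L → ℂ) ⟨i, hi⟩ = 0 := rfl
        rw [h3] at h2
        rw [← h2]
        refine Finset.sum_congr rfl fun s _ => ?_
        change (c s : ℂ) * F (i + (s : ℕ)) = (c s : ℂ) * F ((s : ℕ) + i)
        rw [add_comm]
      rw [hK, Submodule.mem_bot] at h1
      exact h1
    refine alg_kill ht hF (tr A0 L) (fun s => if hs : s ∈ tr A0 L then c ⟨s, hs⟩ else 0)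
      ⟨s0, s0.2, ?_⟩ ?_
    · rw [dif_pos s0.2]
      exact hs0
    · intro n
      have h1 := congrFun hG0 n
      have h2 : (0 : ℕ → ℂ) n = 0 := rfl
      rw [h2] at h1
      rw [← h1, hG, ← Finset.sum_coe_sort (tr A0 L)]
      refine Finset.sum_congr rfl fun s _ => ?_
      rw [dif_pos s.2]

theorem three_mul_le : ∀ k : ℕ, 3 * k ≤ 2 ^ k + 2
  | 0 => by norm_num
  | 1 => by norm_num
  | 2 => by norm_num
  | k + 3 => by
      have h := three_mul_le (k + 2)
      have h2 : 2 ^ (k + 3) = 2 * 2 ^ (k + 2) := by ring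
      have h3 : 2 ^ (k + 2) = 4 * 2 ^ k := by ring
      have h4 : 1 ≤ 2 ^ k := Nat.one_le_two_pow
      omega

theorem const_bound (k N : ℕ) (hN : 1 ≤ N) :
    4 * (N : ℝ) * ((8 : ℝ) ^ k / (4 * N)) ^ ((1 / 2 : ℝ) ^ k) ≤
      8 * (N : ℝ) ^ (1 - (1 / 2 : ℝ) ^ k) := by
  have hN' : (0 : ℝ) < N := by exact_mod_cast hN
  set a : ℝ := (1 / 2 : ℝ) ^ k with ha
  have ha0 : 0 < a := by positivity
  have h1 : (8 : ℝ) ^ k / 4 ≤ (2 : ℝ) ^ (2 ^ k) := by
    rw [div_le_iff₀ (by norm_num)]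
    calc (8 : ℝ) ^ k = 2 ^ (3 * k) := by rw [pow_mul]; norm_num
      _ ≤ 2 ^ (2 ^ k + 2) := pow_le_pow_right₀ (by norm_num) (three_mul_le k)
      _ = 2 ^ (2 ^ k) * 4 := by rw [pow_add]; norm_num
  have h2 : ((8 : ℝ) ^ k / 4) ^ a ≤ 2 := by
    calc ((8 : ℝ) ^ k / 4) ^ a ≤ ((2 : ℝ) ^ (2 ^ k)) ^ a :=
          Real.rpow_le_rpow (by positivity) h1 ha0.le
      _ = (2 : ℝ) ^ (((2 ^ k : ℕ) : ℝ) * a) := by
          rw [Real.rpow_mul (by norm_num), Real.rpow_natCast]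
      _ = 2 := by
          have : ((2 ^ k : ℕ) : ℝ) * a = 1 := by
            rw [ha]
            push_cast
            rw [← mul_pow]
            norm_num
          rw [this, Real.rpow_one]
  have h3 : (8 : ℝ) ^ k / (4 * N) = (8 : ℝ) ^ k / 4 * (N : ℝ)⁻¹ := by
    field_simp
  rw [h3, Real.mul_rpow (by positivity) (by positivity), Real.inv_rpow hN'.le, Real.rpow_sub hN',
    Real.rpow_one]
  have h4 : 0 < (N : ℝ) ^ a := Real.rpow_pos_of_pos hN' a
  calc 4 * (N : ℝ) * (((8 : ℝ) ^ k / 4) ^ a * ((N : ℝ) ^ a)⁻¹) =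
        ((8 : ℝ) ^ k / 4) ^ a * (4 * N / (N : ℝ) ^ a) := by
          field_simp
    _ ≤ 2 * (4 * N / (N : ℝ) ^ a) := mul_le_mul_of_nonneg_right h2 (by positivity)
    _ = 8 * ((N : ℝ) / (N : ℝ) ^ a) := by ring

open Classical in
/-- **Main theorem.** -/
theorem main {q : ℂ[X]} (hq : q ≠ 0) (ht : TrR q) (hnd : NonDeg q) {F : ℕ → ℂ}
    (hF : F ∈ Rec q) (hF0 : F ≠ 0) (y N : ℕ) (hN : 1 ≤ N) :
    (((Ioc y (y + N)).filter (fun n => F n ∈ Lt)).card : ℝ) ≤
      8 * (N : ℝ) ^ (1 - (1 / 2 : ℝ) ^ (2 * q.natDegree - 1)) := by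
  set k := 2 * q.natDegree - 1 with hk
  refine le_trans ?_ (const_bound k N hN)
  refine cube_count k _ y N (8 ^ k) (one_le_pow₀ (by norm_num)) hN ?_ ?_
  · intro s hs
    rw [mem_filter, mem_Ioc] at hs
    exact hs.1
  · intro l hl hd
    have h1 := tr_bound hq ht hnd hF hF0 ((Ioc y (y + N)).filter (fun n => F n ∈ Lt))
      (fun s hs => (mem_filter.1 hs).2) l hl hd
    exact_mod_cast h1

end Pool.Agent.NH76.TT
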