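import Mathlib

/-!
# Linear recurrences without algebraic characteristic roots
-/

set_option autoImplicit false

namespace Pool.Agent.NH76.TT

open Finset Polynomial Module

/-- the algebraic numbers -/
noncomputable abbrev QQ : IntermediateField ℚ ℂ := algebraicClosure ℚ ℂ

theorem mem_QQ {z : ℂ} : z ∈ QQ ↔ IsAlgebraic ℚ z := mem_algebraicClosure_iff

/-- the shift -/
def E : Module.End ℂ (ℕ → ℂ) where
  toFun f n := f (n + 1)
  map_add' _ _ := rfl
  map_smul' _ _ := rfl

theorem E_pow (d n : ℕ) (f : ℕ → ℂ) : (E ^ d) f n = f (n + d) := by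
  induction d generalizing n f with
  | zero => simp
  | succ d ih =>
    rw [pow_succ, Module.End.mul_apply, ih]
    change f (n + d + 1) = _
    rw [add_assoc]

/-- sequences satisfying the recurrence with characteristic polynomial `q` -/
noncomputable def Rec (q : ℂ[X]) : Submodule ℂ (ℕ → ℂ) := LinearMap.ker (aeval E q)

theorem mem_Rec {q : ℂ[X]} {f : ℕ → ℂ} : f ∈ Rec q ↔ aeval E q f = 0 := LinearMap.mem_ker

theorem aeval_apply (p : ℂ[X]) (f : ℕ → ℂ) (n : ℕ) :
    aeval E p f n = ∑ k ∈ range (p.natDegree + 1), p.coeff k * f (n + k) := by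
  rw [aeval_eq_sum_range, LinearMap.sum_apply, Finset.sum_apply]
  refine Finset.sum_congr rfl fun k _ => ?_
  rw [LinearMap.smul_apply, Pi.smul_apply, E_pow, smul_eq_mul]

theorem mem_Rec_iff {q : ℂ[X]} {f : ℕ → ℂ} :
    f ∈ Rec q ↔ ∀ n, ∑ k ∈ range (q.natDegree + 1), q.coeff k * f (n + k) = 0 := by
  rw [mem_Rec, funext_iff]
  exact forall_congr' fun n => by rw [aeval_apply]; rfl

theorem aeval_comm (p r : ℂ[X]) (f : ℕ → ℂ) : aeval E p (aeval E r f) = aeval E r (aeval E p f) := by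
  rw [← Module.End.mul_apply, ← Module.End.mul_apply, ← map_mul, ← map_mul, mul_comm]

theorem coprime_kill {p q : ℂ[X]} (h : IsCoprime p q) {f : ℕ → ℂ} (hp : aeval E p f = 0)
    (hq : aeval E q f = 0) : f = 0 := by
  obtain ⟨a, b, hab⟩ := h
  have h1 : aeval E (a * p + b * q) f = f := by
    rw [hab, map_one]
    rfl
  rw [map_add, map_mul, map_mul, LinearMap.add_apply, Module.End.mul_apply, Module.End.mul_apply, hp,
    hq, map_zero, map_zero, add_zero] at h1
  exact h1.symm

theorem coprime_of {p q : ℂ[X]} (h : ∀ z : ℂ, p.eval z = 0 → q.eval z = 0 → False) :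
    IsCoprime p q := by
  rw [Polynomial.isCoprime_iff_aeval_ne_zero_of_isAlgClosed ℂ ℂ]
  intro a
  by_contra hcon
  push Not at hcon
  exact h a (by simpa using hcon.1) (by simpa using hcon.2)

theorem E_pow_mem {q : ℂ[X]} {f : ℕ → ℂ} (hf : f ∈ Rec q) (d : ℕ) : (E ^ d) f ∈ Rec q := by
  rw [mem_Rec] at hf ⊢
  have h1 : (E ^ d) f = aeval E (X ^ d : ℂ[X]) f := by rw [map_pow, aeval_X]
  rw [h1, aeval_comm, hf, map_zero]

/-- the values at the beginning determine the sequence -/
theorem eq_zero_of_init {q : ℂ[X]} (hq : q ≠ 0) {f : ℕ → ℂ} (hf : f ∈ Rec q)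
    (h : ∀ i < q.natDegree, f i = 0) : f = 0 := by
  funext n
  induction n using Nat.strong_induction_on with
  | _ n ih =>
    rcases Nat.lt_or_ge n q.natDegree with hn | hn
    · exact h n hn
    · have h1 := mem_Rec_iff.1 hf (n - q.natDegree)
      rw [Finset.sum_range_succ, Finset.sum_eq_zero, zero_add,
        show n - q.natDegree + q.natDegree = n by omega] at h1
      · exact (mul_eq_zero.1 h1).resolve_left (leadingCoeff_ne_zero.2 hq)
      · intro k hk
        rw [Finset.mem_range] at hk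
        rw [ih (n - q.natDegree + k) (by omega)]
        simp

instance finDim (q : ℂ[X]) [hq : NeZero q] : FiniteDimensional ℂ (Rec q) := by
  let φ : Rec q →ₗ[ℂ] (Fin q.natDegree → ℂ) :=
    (LinearMap.funLeft ℂ ℂ (fun i : Fin q.natDegree => (i : ℕ))) ∘ₗ (Rec q).subtype
  refine FiniteDimensional.of_injective φ ?_
  rw [← LinearMap.ker_eq_bot, LinearMap.ker_eq_bot']
  rintro ⟨f, hf⟩ h
  have : f = 0 := eq_zero_of_init hq.out hf (fun i hi => congrFun h ⟨i, hi⟩)
  exact Subtype.ext this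

theorem finrank_Rec (q : ℂ[X]) [hq : NeZero q] : finrank ℂ (Rec q) ≤ q.natDegree := by
  let φ : Rec q →ₗ[ℂ] (Fin q.natDegree → ℂ) :=
    (LinearMap.funLeft ℂ ℂ (fun i : Fin q.natDegree => (i : ℕ))) ∘ₗ (Rec q).subtype
  have h := LinearMap.finrank_le_finrank_of_injective (f := φ) (by
    rw [← LinearMap.ker_eq_bot, LinearMap.ker_eq_bot']
    rintro ⟨f, hf⟩ h
    have : f = 0 := eq_zero_of_init hq.out hf (fun i hi => congrFun h ⟨i, hi⟩)
    exact Subtype.ext this)
  rwa [Module.finrank_fin_fun] at h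

/-- all roots are transcendental -/
def TrR (q : ℂ[X]) : Prop := ∀ z : ℂ, q.eval z = 0 → Transcendental ℚ z

/-- no quotient of two different roots is a root of unity -/
def NonDeg (q : ℂ[X]) : Prop :=
  ∀ z w : ℂ, q.eval z = 0 → q.eval w = 0 → ∀ d : ℕ, 0 < d → z ^ d = w ^ d → z = w

theorem TrR.eval_zero {q : ℂ[X]} (ht : TrR q) : q.eval 0 ≠ 0 := fun h => ht 0 h isAlgebraic_zero

/-- algebraic relations -/
theorem alg_kill {q : ℂ[X]} (ht : TrR q) {f : ℕ → ℂ} (hf : f ∈ Rec q) (S : Finset ℕ)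
    (c : ℕ → QQ) (hc : ∃ s ∈ S, c s ≠ 0) (h : ∀ n, ∑ s ∈ S, (c s : ℂ) * f (n + s) = 0) :
    f = 0 := by
  classical
  set P' : QQ[X] := ∑ s ∈ S, C (c s) * X ^ s with hP'
  have hP0 : P' ≠ 0 := by
    obtain ⟨s, hs, hcs⟩ := hc
    intro h0
    have h1 := congrArg (fun p => coeff p s) h0
    simp only [hP', finsetSum_coeff, coeff_C_mul, coeff_X_pow, coeff_zero, mul_ite, mul_one,
      mul_zero] at h1
    rw [Finset.sum_ite_eq, if_pos hs] at h1
    exact hcs h1
  have hco : IsCoprime (P'.map (algebraMap QQ ℂ)) q := by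
    refine coprime_of fun z hz hz2 => ht z hz2 ?_
    have h1 : IsAlgebraic QQ z := ⟨P', hP0, by rwa [aeval_def, ← eval_map]⟩
    have h2 : Algebra.IsAlgebraic ℚ QQ := ⟨fun x =>
      (isAlgebraic_algebraMap_iff (algebraMap QQ ℂ).injective).1 (mem_QQ.1 x.2)⟩
    exact h1.restrictScalars ℚ
  refine coprime_kill hco ?_ (mem_Rec.1 hf)
  have h2 : P'.map (algebraMap QQ ℂ) = ∑ s ∈ S, C ((c s : QQ) : ℂ) * X ^ s := by
    rw [hP', Polynomial.map_sum]
    refine Finset.sum_congr rfl fun s _ => ?_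
    rw [Polynomial.map_mul, Polynomial.map_C, Polynomial.map_pow, Polynomial.map_X]
    rfl
  rw [h2, map_sum, LinearMap.sum_apply]
  funext n
  rw [Finset.sum_apply, Pi.zero_apply, ← h n]
  refine Finset.sum_congr rfl fun s _ => ?_
  rw [map_mul, aeval_C, map_pow, aeval_X, Module.End.mul_apply, Module.algebraMap_end_apply,
    Pi.smul_apply, E_pow, smul_eq_mul]

/-- an eigenvector of a power of the shift which vanishes at `0` -/
theorem eig_zero {q : ℂ[X]} (ht : q.eval 0 ≠ 0) (hnd : NonDeg q) {f : ℕ → ℂ} (hf : f ∈ Rec q) {d : ℕ}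
    (hd : 0 < d) (μ : ℂ) (h : (E ^ d) f = μ • f) (h0 : f 0 = 0) : f = 0 := by
  have hT : aeval E (X ^ d - C μ : ℂ[X]) f = 0 := by
    rw [map_sub, map_pow, aeval_X, aeval_C, LinearMap.sub_apply, h, Module.algebraMap_end_apply,
      sub_self]
  by_cases hx : ∃ x : ℂ, q.eval x = 0 ∧ x ^ d = μ
  · obtain ⟨x, hx, hxd⟩ := hx
    have hx0 : x ≠ 0 := by
      rintro rfl
      exact ht hx
    set r : ℂ[X] := (X ^ d - C μ) /ₘ (X - C x) with hr
    have hroot : (X ^ d - C μ : ℂ[X]).IsRoot x := by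
      rw [IsRoot, eval_sub, eval_pow, eval_X, eval_C, hxd, sub_self]
    have hmul : (X - C x) * r = X ^ d - C μ := mul_divByMonic_eq_iff_isRoot.2 hroot
    have hrx : r.eval x ≠ 0 := by
      have h1 := congrArg derivative hmul
      rw [derivative_mul, derivative_sub, derivative_X, derivative_C, sub_zero, one_mul,
        derivative_sub, derivative_X_pow, derivative_C, sub_zero] at h1
      have h2 := congrArg (fun p => eval x p) h1
      simp only [eval_add, eval_mul, eval_sub, eval_X, eval_C, sub_self, zero_mul, add_zero,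
        eval_pow] at h2
      rw [h2]
      have h3 : ((d : ℕ) : ℂ) ≠ 0 := by exact_mod_cast hd.ne'
      exact mul_ne_zero h3 (pow_ne_zero _ hx0)
    have hco : IsCoprime r q := by
      refine coprime_of fun z hz hz2 => ?_
      have h1 : z ^ d = x ^ d := by
        have h2 := congrArg (fun p => eval z p) hmul
        simp only [eval_mul, eval_sub, eval_X, eval_C, eval_pow, hz, mul_zero] at h2
        rw [hxd]
        exact (sub_eq_zero.1 h2.symm)
      have h3 := hnd z x hz2 hx d hd h1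
      rw [h3] at hz
      exact hrx hz
    have h4 : aeval E (X - C x : ℂ[X]) f = 0 := by
      refine coprime_kill hco ?_ ?_
      · rw [← Module.End.mul_apply, ← map_mul, mul_comm, hmul]
        exact hT
      · rw [aeval_comm, mem_Rec.1 hf, map_zero]
    have h5 : ∀ n, f (n + 1) = x * f n := by
      intro n
      have h6 := congrFun h4 n
      rw [map_sub, aeval_X, aeval_C, LinearMap.sub_apply, Module.algebraMap_end_apply, Pi.sub_apply,
        Pi.smul_apply, Pi.zero_apply, smul_eq_mul] at h6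
      exact sub_eq_zero.1 h6
    funext n
    induction n with
    | zero => exact h0
    | succ n ih => rw [h5, ih]; simp
  · push Not at hx
    refine coprime_kill (p := X ^ d - C μ) (q := q) ?_ hT (mem_Rec.1 hf)
    refine coprime_of fun z hz hz2 => ?_
    refine hx z hz2 ?_
    rw [eval_sub, eval_pow, eval_X, eval_C] at hz
    exact sub_eq_zero.1 hz

/-- a sequence which vanishes along a progression through `0` -/
theorem prog_zero {q : ℂ[X]} [NeZero q] (ht : q.eval 0 ≠ 0) (hnd : NonDeg q) {d : ℕ} (hd : 0 < d)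
    {f : ℕ → ℂ} (hf : f ∈ Rec q) (h : ∀ j : ℕ, f (j * d) = 0) : f = 0 := by
  by_contra hf0
  let U : Submodule ℂ (ℕ → ℂ) :=
    { carrier := {g | g ∈ Rec q ∧ ∀ j : ℕ, g (j * d) = 0}
      add_mem' := by
        rintro a b ⟨ha1, ha2⟩ ⟨hb1, hb2⟩
        exact ⟨Submodule.add_mem _ ha1 hb1, fun j => by rw [Pi.add_apply, ha2, hb2, add_zero]⟩
      zero_mem' := ⟨Submodule.zero_mem _, fun _ => rfl⟩
      smul_mem' := by
        rintro c a ⟨ha1, ha2⟩
        exact ⟨Submodule.smul_mem _ c ha1, fun j => by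
          rw [Pi.smul_apply, ha2, smul_zero]⟩ }
  have hUR : U ≤ Rec q := fun g hg => hg.1
  have : FiniteDimensional ℂ U := Submodule.finiteDimensional_of_le hUR
  have hUE : ∀ g ∈ U, (E ^ d) g ∈ U := by
    rintro g ⟨h1, h2⟩
    refine ⟨E_pow_mem h1 d, fun j => ?_⟩
    rw [E_pow, show j * d + d = (j + 1) * d by ring]
    exact h2 _
  have : Nontrivial U := ⟨⟨⟨f, hf, h⟩, 0, fun h3 => hf0 (congrArg Subtype.val h3)⟩⟩
  obtain ⟨μ, hμ⟩ := Module.End.exists_eigenvalue ((E ^ d).restrict hUE)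
  obtain ⟨g, hg⟩ := hμ.exists_hasEigenvector
  have h1 := hg.apply_eq_smul
  have h2 : (E ^ d) (g : ℕ → ℂ) = μ • (g : ℕ → ℂ) := congrArg Subtype.val h1
  have h3 := eig_zero ht hnd (hUR g.2) hd μ h2 (by simpa using g.2.2 0)
  exact hg.2 (Subtype.ext h3)

end Pool.Agent.NH76.TT
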