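import Pool.Agent.NH76.TT.Cnt
import Pool.Agent.NH76.TT.Lin
import Pool.Agent.TH160.TowP.RankB

/-!
# Algebraic values on cubes
-/

set_option autoImplicit false

namespace Pool.Agent.NH76.TT

open Finset Polynomial Module

/-- a chain of subspaces -/
theorem chain {D W : Type*} [Field D] [AddCommGroup W] [Module D W] (T : ℕ → (W →ₗ[D] W))
    (A : List ℕ → Submodule D W) (l0 : List ℕ)
    (hA : ∀ d l, A (d :: l) = A l ⊓ (A l).comap (T d))
    [FiniteDimensional D (A l0)]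
    (hno : ∀ d, 0 < d → ∀ l, A (l ++ l0) ≤ A l0 → A (l ++ l0) ≤ (A (l ++ l0)).comap (T d) →
      A (l ++ l0) = ⊥) (m : ℕ)
    (hm : finrank D (A l0) ≤ m) : ∀ l : List ℕ, (∀ d ∈ l, 0 < d) →
      A (l ++ l0) ≤ A l0 ∧ (A (l ++ l0) = ⊥ ∨ finrank D (A (l ++ l0)) + l.length ≤ m)
  | [], _ => ⟨le_rfl, Or.inr (by simpa using hm)⟩
  | d :: l, hl => by
      have hd : 0 < d := hl d (by simp)
      obtain ⟨h1, h2⟩ := chain T A l0 hA hno m hm l (fun e he => hl e (by simp [he]))
      have h3 : A (d :: l ++ l0) = A (l ++ l0) ⊓ (A (l ++ l0)).comap (T d) := hA d (l ++ l0)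
      have h4 : A (d :: l ++ l0) ≤ A (l ++ l0) := by
        rw [h3]
        exact inf_le_left
      refine ⟨h4.trans h1, ?_⟩
      have h5 : FiniteDimensional D (A (l ++ l0)) := Submodule.finiteDimensional_of_le h1
      rcases h2 with h2 | h2
      · left
        rw [eq_bot_iff, ← h2]
        exact h4
      · rcases eq_or_lt_of_le h4 with h6 | h6
        · left
          have h7 : A (l ++ l0) ≤ (A (l ++ l0)).comap (T d) := by
            rw [h3] at h6
            exact inf_eq_left.1 h6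
          rw [h6]
          exact hno d hd l h1 h7
        · right
          have h8 := Submodule.finrank_lt_finrank_of_lt h6
          rw [List.length_cons]
          omega

/-- the sequences which vanish on the cube -/
def K (q : ℂ[X]) (l : List ℕ) : Submodule ℂ (ℕ → ℂ) where
  carrier := {f | f ∈ Rec q ∧ ∀ i ∈ cube l, f i = 0}
  add_mem' := by
    rintro a b ⟨ha1, ha2⟩ ⟨hb1, hb2⟩
    exact ⟨Submodule.add_mem _ ha1 hb1, fun i hi => by rw [Pi.add_apply, ha2 i hi, hb2 i hi, add_zero]⟩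
  zero_mem' := ⟨Submodule.zero_mem _, fun _ _ => rfl⟩
  smul_mem' := by
    rintro c a ⟨ha1, ha2⟩
    exact ⟨Submodule.smul_mem _ c ha1, fun i hi => by rw [Pi.smul_apply, ha2 i hi, smul_zero]⟩

/-- the sequences with algebraic values on the cube -/
def AA (q : ℂ[X]) (l : List ℕ) : Submodule QQ (ℕ → ℂ) where
  carrier := {f | f ∈ Rec q ∧ ∀ i ∈ cube l, IsAlgebraic ℚ (f i)}
  add_mem' := by
    rintro a b ⟨ha1, ha2⟩ ⟨hb1, hb2⟩
    exact ⟨Submodule.add_mem _ ha1 hb1, fun i hi => (ha2 i hi).add (hb2 i hi)⟩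
  zero_mem' := ⟨Submodule.zero_mem _, fun _ _ => isAlgebraic_zero⟩
  smul_mem' := by
    rintro c a ⟨ha1, ha2⟩
    exact ⟨Submodule.smul_mem _ (c : ℂ) ha1, fun i hi => (mem_QQ.1 c.2).mul (ha2 i hi)⟩

theorem mem_cube_cons {P : ℕ → Prop} {d : ℕ} {l : List ℕ} :
    (∀ i ∈ cube (d :: l), P i) ↔ (∀ i ∈ cube l, P i) ∧ ∀ i ∈ cube l, P (i + d) := by
  rw [cube]
  constructor
  · intro h
    exact ⟨fun i hi => h i (mem_union_left _ hi),
      fun i hi => h (i + d) (mem_union_right _ (mem_image_of_mem _ hi))⟩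
  · rintro ⟨h1, h2⟩ i hi
    rcases mem_union.1 hi with hi | hi
    · exact h1 i hi
    · obtain ⟨j, hj, rfl⟩ := mem_image.1 hi
      exact h2 j hj

theorem K_cons (q : ℂ[X]) (d : ℕ) (l : List ℕ) : K q (d :: l) = K q l ⊓ (K q l).comap (E ^ d) := by
  ext f
  rw [Submodule.mem_inf, Submodule.mem_comap]
  change (f ∈ Rec q ∧ ∀ i ∈ cube (d :: l), f i = 0) ↔ (f ∈ Rec q ∧ ∀ i ∈ cube l, f i = 0) ∧
    ((E ^ d) f ∈ Rec q ∧ ∀ i ∈ cube l, (E ^ d) f i = 0)
  rw [mem_cube_cons (P := fun i => f i = 0)]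
  simp only [E_pow]
  constructor
  · rintro ⟨h1, h2, h3⟩
    exact ⟨⟨h1, h2⟩, E_pow_mem h1 d, h3⟩
  · rintro ⟨⟨h1, h2⟩, -, h3⟩
    exact ⟨h1, h2, h3⟩

/-- the power of the shift over the algebraic numbers -/
noncomputable def EQ (d : ℕ) : (ℕ → ℂ) →ₗ[QQ] (ℕ → ℂ) := (E ^ d).restrictScalars QQ

theorem AA_cons (q : ℂ[X]) (d : ℕ) (l : List ℕ) :
    AA q (d :: l) = AA q l ⊓ (AA q l).comap (EQ d) := by
  ext f
  rw [Submodule.mem_inf, Submodule.mem_comap]
  change (f ∈ Rec q ∧ ∀ i ∈ cube (d :: l), IsAlgebraic ℚ (f i)) ↔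
    (f ∈ Rec q ∧ ∀ i ∈ cube l, IsAlgebraic ℚ (f i)) ∧
    ((E ^ d) f ∈ Rec q ∧ ∀ i ∈ cube l, IsAlgebraic ℚ ((E ^ d) f i))
  rw [mem_cube_cons (P := fun i => IsAlgebraic ℚ (f i))]
  simp only [E_pow]
  constructor
  · rintro ⟨h1, h2, h3⟩
    exact ⟨⟨h1, h2⟩, E_pow_mem h1 d, h3⟩
  · rintro ⟨⟨h1, h2⟩, -, h3⟩
    exact ⟨h1, h2, h3⟩

theorem K_no {q : ℂ[X]} [NeZero q] (ht : q.eval 0 ≠ 0) (hnd : NonDeg q) {d : ℕ} (hd : 0 < d) (l : List ℕ)
    (h : K q l ≤ (K q l).comap (E ^ d)) : K q l = ⊥ := by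
  rw [eq_bot_iff]
  intro f hf
  rw [Submodule.mem_bot]
  have h1 : ∀ (j : ℕ) (g : ℕ → ℂ), g ∈ K q l → g (j * d) = 0 := by
    intro j
    induction j with
    | zero =>
      intro g hg
      rw [zero_mul]
      exact hg.2 0 (zero_mem_cube l)
    | succ j ih =>
      intro g hg
      have h2 := ih _ (h hg)
      rw [E_pow] at h2
      rwa [show (j + 1) * d = j * d + d by ring]
  exact prog_zero ht hnd hd hf.1 (fun j => h1 j f hf)

theorem A_no {q : ℂ[X]} (ht : TrR q) {d : ℕ} (hd : 0 < d)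
    (B : Submodule QQ (ℕ → ℂ)) [FiniteDimensional QQ B] (hB : ∀ f ∈ B, f ∈ Rec q)
    (h : ∀ f ∈ B, (E ^ d) f ∈ B) : B = ⊥ := by
  classical
  rw [eq_bot_iff]
  intro f hf
  rw [Submodule.mem_bot]
  set m := finrank QQ B with hm
  have hmem : ∀ j : ℕ, (E ^ (j * d)) f ∈ B := by
    intro j
    induction j with
    | zero => simpa using hf
    | succ j ih =>
      have := h _ ih
      rwa [← Module.End.mul_apply, ← pow_add, show d + j * d = (j + 1) * d by ring] at this
  let v : Fin (m + 1) → B := fun j => ⟨(E ^ ((j : ℕ) * d)) f, hmem j⟩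
  have hli : ¬ LinearIndependent QQ v := by
    intro hli
    have := hli.fintype_card_le_finrank
    rw [Fintype.card_fin] at this
    omega
  obtain ⟨g, hg, j0, hj0⟩ := Fintype.not_linearIndependent_iff.1 hli
  have hg' : ∀ n, ∑ j : Fin (m + 1), (g j : ℂ) * f (n + (j : ℕ) * d) = 0 := by
    intro n
    have h1 := congrFun (congrArg Subtype.val hg) n
    rw [Submodule.coe_sum, Finset.sum_apply] at h1
    have h2 : ((0 : B) : ℕ → ℂ) n = 0 := rfl
    rw [h2] at h1
    rw [← h1]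
    refine Finset.sum_congr rfl fun j _ => ?_
    change _ = (g j : ℂ) * (E ^ ((j : ℕ) * d)) f n
    rw [E_pow]
  refine alg_kill ht (hB f hf) (Finset.image (fun j : Fin (m + 1) => (j : ℕ) * d) univ)
    (fun s => if hs : s / d < m + 1 then g ⟨s / d, hs⟩ else 0)
    ⟨(j0 : ℕ) * d, mem_image_of_mem _ (mem_univ _), ?_⟩ ?_
  · have h3 : (j0 : ℕ) * d / d = j0 := Nat.mul_div_cancel _ hd
    simp only [h3]
    rw [dif_pos j0.2]
    exact hj0
  · intro n
    rw [Finset.sum_image, ← hg' n]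
    · refine Finset.sum_congr rfl fun j _ => ?_
      have h3 : (j : ℕ) * d / d = j := Nat.mul_div_cancel _ hd
      simp only [h3]
      rw [dif_pos j.2]
    · intro a _ b _ hab
      exact Fin.ext (Nat.eq_of_mul_eq_mul_right hd hab)

theorem fd_A {q : ℂ[X]} (l : List ℕ) (hK : K q l = ⊥) : FiniteDimensional QQ (AA q l) := by
  let φ : AA q l →ₗ[QQ] ((cube l) → QQ) :=
    { toFun := fun f i => ⟨(f : ℕ → ℂ) i, mem_QQ.2 (f.2.2 i i.2)⟩
      map_add' := fun _ _ => rfl
      map_smul' := fun _ _ => rfl }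
  refine FiniteDimensional.of_injective φ ?_
  rw [← LinearMap.ker_eq_bot, LinearMap.ker_eq_bot']
  rintro ⟨f, hf⟩ h
  have h1 : f ∈ K q l := ⟨hf.1, fun i hi => congrArg Subtype.val (congrFun h ⟨i, hi⟩)⟩
  rw [hK, Submodule.mem_bot] at h1
  exact Subtype.ext h1

theorem finrank_A {q : ℂ[X]} [NeZero q] (l : List ℕ) (hK : K q l = ⊥) :
    finrank QQ (AA q l) ≤ q.natDegree := by
  classical
  have := fd_A l hK
  let b := Module.finBasis QQ (AA q l)
  let w : Fin (finrank QQ (AA q l)) → Rec q := fun j => ⟨(b j : ℕ → ℂ), (b j).2.1⟩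
  have hli : LinearIndependent ℂ w := by
    rw [Fintype.linearIndependent_iff]
    intro c hc
    obtain ⟨ρ, e, M, -, he, hM⟩ := Pool.Agent.TH160.TowP.exists_coord c
    have h1 : ∀ m : Fin ρ, ∑ j, (M j m) • b j = 0 := by
      intro m
      have h2 : ((∑ j, (M j m) • b j : AA q l) : ℕ → ℂ) ∈ K q l := by
        refine ⟨(∑ j, (M j m) • b j : AA q l).2.1, fun i hi => ?_⟩
        -- coordinates
        have h3 : ∀ m : Fin ρ, IsAlgebraic ℚ (((∑ j, (M j m) • b j : AA q l) : ℕ → ℂ) i) :=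
          fun m => (∑ j, (M j m) • b j : AA q l).2.2 i hi
        have h4 : ∀ m : Fin ρ, ((∑ j, (M j m) • b j : AA q l) : ℕ → ℂ) i =
            ∑ j, (M j m : ℂ) * (b j : ℕ → ℂ) i := by
          intro m
          rw [Submodule.coe_sum, Finset.sum_apply]
          exact Finset.sum_congr rfl fun j _ => rfl
        have h5 : ∑ m, (⟨_, mem_QQ.2 (h3 m)⟩ : QQ) • e m = 0 := by
          have h6 := congrFun (congrArg Subtype.val hc) i
          rw [Submodule.coe_sum, Finset.sum_apply] at h6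
          have h7 : ((0 : Rec q) : ℕ → ℂ) i = 0 := rfl
          rw [h7] at h6
          rw [← h6]
          have h8 : ∀ m : Fin ρ, (⟨_, mem_QQ.2 (h3 m)⟩ : QQ) • e m =
              ∑ j, (M j m : ℂ) * (b j : ℕ → ℂ) i * e m := by
            intro m
            rw [← Finset.sum_mul, ← h4 m]
            rfl
          rw [Finset.sum_congr rfl fun m _ => h8 m, Finset.sum_comm]
          refine Finset.sum_congr rfl fun j _ => ?_
          change _ = c j * (b j : ℕ → ℂ) i
          rw [hM j, Finset.sum_mul]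
          exact Finset.sum_congr rfl fun m _ => by ring
        have h9 := Fintype.linearIndependent_iff.1 he _ h5 m
        exact congrArg Subtype.val h9
      rw [hK, Submodule.mem_bot] at h2
      exact Subtype.ext h2
    intro j
    have h10 : ∀ m, M j m = 0 := fun m => Fintype.linearIndependent_iff.1 b.linearIndependent _ (h1 m) j
    rw [hM j]
    refine Finset.sum_eq_zero fun m _ => ?_
    rw [h10 m]
    simp
  have h11 := hli.fintype_card_le_finrank
  rw [Fintype.card_fin] at h11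
  exact h11.trans (finrank_Rec q)

theorem K_bot {q : ℂ[X]} [NeZero q] (ht : q.eval 0 ≠ 0) (hnd : NonDeg q) {F : ℕ → ℂ} (hF : F ∈ Rec q)
    (hF0 : F ≠ 0) (l : List ℕ) (hl : ∀ d ∈ l, 0 < d) (hlen : q.natDegree ≤ l.length + 1) :
    K q l = ⊥ := by
  have h1 : K q [] ≤ Rec q := fun f hf => hf.1
  have h2 : K q [] < Rec q := by
    refine lt_of_le_of_ne h1 fun h3 => hF0 ?_
    funext n
    have h4 : (E ^ n) F ∈ K q [] := by
      rw [h3]
      exact E_pow_mem hF n
    have h5 := h4.2 0 (zero_mem_cube [])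
    rwa [E_pow, zero_add] at h5
  have h3 := Submodule.finrank_lt_finrank_of_lt h2
  have h4 := finrank_Rec q
  have : FiniteDimensional ℂ (K q []) := Submodule.finiteDimensional_of_le h1
  obtain ⟨h5, h6⟩ := chain (fun d => E ^ d) (K q) [] (K_cons q)
    (fun d hd l _ h => K_no ht hnd hd _ h) (q.natDegree - 1) (by omega) l hl
  rw [List.append_nil] at h5 h6
  rcases h6 with h6 | h6
  · exact h6
  · have : FiniteDimensional ℂ (K q l) := Submodule.finiteDimensional_of_le h5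
    exact Submodule.finrank_eq_zero.1 (by omega)

theorem A_bot {q : ℂ[X]} [NeZero q] (ht : TrR q) (hnd : NonDeg q) {F : ℕ → ℂ} (hF : F ∈ Rec q)
    (hF0 : F ≠ 0) (l l0 : List ℕ) (hl : ∀ d ∈ l, 0 < d) (hl0 : ∀ d ∈ l0, 0 < d)
    (hlen0 : q.natDegree ≤ l0.length + 1) (hlen : q.natDegree ≤ l.length) :
    AA q (l ++ l0) = ⊥ := by
  have hK := K_bot ht.eval_zero hnd hF hF0 l0 hl0 hlen0
  have := fd_A l0 hK
  obtain ⟨h5, h6⟩ := chain EQ (AA q) l0 (AA_cons q)
    (fun d hd l h1 h => by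
      have : FiniteDimensional QQ (AA q (l ++ l0)) := Submodule.finiteDimensional_of_le h1
      exact A_no ht hd _ (fun f hf => hf.1) (fun f hf => h hf)) q.natDegree (finrank_A l0 hK) l hl
  rcases h6 with h6 | h6
  · exact h6
  · have : FiniteDimensional QQ (AA q (l ++ l0)) := Submodule.finiteDimensional_of_le h5
    exact Submodule.finrank_eq_zero.1 (by omega)

end Pool.Agent.NH76.TT
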