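import Mathlib

/-!
# Cubes in dense sets of integers
-/

set_option autoImplicit false

namespace Pool.Agent.NH76.TT

open Finset

/-- the cube generated by a list of differences -/
def cube : List ℕ → Finset ℕ
  | [] => {0}
  | d :: l => cube l ∪ (cube l).image (fun i => i + d)

theorem zero_mem_cube : ∀ l : List ℕ, 0 ∈ cube l
  | [] => by simp [cube]
  | d :: l => by
      rw [cube, mem_union]
      exact Or.inl (zero_mem_cube l)

theorem card_cube : ∀ l : List ℕ, (cube l).card ≤ 2 ^ l.length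
  | [] => by simp [cube]
  | d :: l => by
      rw [cube, List.length_cons, pow_succ]
      have h1 := card_union_le (cube l) ((cube l).image (fun i => i + d))
      have h2 : ((cube l).image (fun i => i + d)).card ≤ (cube l).card := card_image_le
      have h3 := card_cube l
      omega

/-- the translates of a cube in a set -/
def tr (A : Finset ℕ) (l : List ℕ) : Finset ℕ := A.filter (fun s => ∀ i ∈ cube l, s + i ∈ A)

theorem mem_tr {A : Finset ℕ} {l : List ℕ} {s : ℕ} : s ∈ tr A l ↔ ∀ i ∈ cube l, s + i ∈ A := by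
  rw [tr, mem_filter]
  constructor
  · exact fun h => h.2
  · intro h
    refine ⟨?_, h⟩
    have := h 0 (zero_mem_cube l)
    simpa using this

theorem mem_tr_cons {A : Finset ℕ} {d : ℕ} {l : List ℕ} {s : ℕ} :
    s ∈ tr A (d :: l) ↔ s ∈ tr A l ∧ s + d ∈ tr A l := by
  rw [mem_tr, mem_tr, mem_tr, cube]
  constructor
  · intro h
    refine ⟨fun i hi => h i (mem_union_left _ hi), fun i hi => ?_⟩
    have := h (i + d) (mem_union_right _ (mem_image_of_mem _ hi))
    rwa [show s + d + i = s + (i + d) by ring]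
  · rintro ⟨h1, h2⟩ i hi
    rcases mem_union.1 hi with hi | hi
    · exact h1 i hi
    · obtain ⟨j, hj, rfl⟩ := mem_image.1 hi
      rw [show s + (j + d) = s + d + j by ring]
      exact h2 j hj

/-- one difference -/
theorem one_step (B : Finset ℕ) (y N M : ℕ) (hB : ∀ s ∈ B, y < s ∧ s ≤ y + N)
    (h : ∀ d, 0 < d → (B.filter (fun s => s + d ∈ B)).card ≤ M) :
    B.card * (B.card - 1) ≤ 2 * N * M := by
  classical
  -- pairs
  have h1 : (B.offDiag.filter (fun p => p.1 < p.2)).card ≤ N * M := by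
    have h2 : B.offDiag.filter (fun p => p.1 < p.2) ⊆
        (Icc 1 N).biUnion (fun d => (B.filter (fun s => s + d ∈ B)).image (fun s => (s, s + d))) := by
      rintro ⟨a, b⟩ hp
      rw [mem_filter, mem_offDiag] at hp
      obtain ⟨⟨ha, hb, -⟩, hab⟩ := hp
      simp only at ha hb hab
      rw [mem_biUnion]
      have h3 := hB a ha
      have h4 := hB b hb
      refine ⟨b - a, mem_Icc.2 ⟨by omega, by omega⟩, mem_image.2 ⟨a, mem_filter.2 ⟨ha, ?_⟩, ?_⟩⟩
      · rwa [show a + (b - a) = b by omega]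
      · rw [show a + (b - a) = b by omega]
    refine (card_le_card h2).trans (card_biUnion_le.trans ?_)
    calc ∑ d ∈ Icc 1 N, ((B.filter (fun s => s + d ∈ B)).image (fun s => (s, s + d))).card
        ≤ ∑ _d ∈ Icc 1 N, M := by
          refine sum_le_sum fun d hd => card_image_le.trans (h d ?_)
          exact (mem_Icc.1 hd).1
      _ = N * M := by simp
  have h5 : B.offDiag.card = 2 * (B.offDiag.filter (fun p => p.1 < p.2)).card := by
    have h6 : (B.offDiag.filter (fun p => ¬ p.1 < p.2)).card =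
        (B.offDiag.filter (fun p => p.1 < p.2)).card := by
      refine card_bij (fun p _ => (p.2, p.1)) ?_ ?_ ?_
      · rintro ⟨a, b⟩ hp
        rw [mem_filter, mem_offDiag] at hp ⊢
        obtain ⟨⟨ha, hb, hne⟩, hab⟩ := hp
        simp only at *
        exact ⟨⟨hb, ha, Ne.symm hne⟩, by omega⟩
      · rintro ⟨a, b⟩ _ ⟨c, d⟩ _ h
        simp only [Prod.mk.injEq] at h ⊢
        exact ⟨h.2, h.1⟩
      · rintro ⟨a, b⟩ hp
        rw [mem_filter, mem_offDiag] at hp
        obtain ⟨⟨ha, hb, hne⟩, hab⟩ := hp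
        simp only at *
        refine ⟨(b, a), ?_, rfl⟩
        rw [mem_filter, mem_offDiag]
        exact ⟨⟨hb, ha, Ne.symm hne⟩, by simp only; omega⟩
    have h7 := card_filter_add_card_filter_not (s := B.offDiag) (fun p : ℕ × ℕ => p.1 < p.2)
    omega
  have h8 : B.offDiag.card = B.card * (B.card - 1) := by
    rw [offDiag_card, Nat.mul_sub, mul_one]
  rw [← h8, h5]
  calc 2 * (B.offDiag.filter (fun p => p.1 < p.2)).card ≤ 2 * (N * M) :=
        Nat.mul_le_mul_left _ h1
    _ = 2 * N * M := by ring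

theorem one_step' (B : Finset ℕ) (y N : ℕ) (M : ℝ) (hM : 1 ≤ M) (hN : 1 ≤ N)
    (hB : ∀ s ∈ B, y < s ∧ s ≤ y + N)
    (h : ∀ d, 0 < d → ((B.filter (fun s => s + d ∈ B)).card : ℝ) ≤ M) :
    (B.card : ℝ) ≤ Real.sqrt (4 * N * M) := by
  have hN' : (1 : ℝ) ≤ N := by exact_mod_cast hN
  apply Real.le_sqrt_of_sq_le
  rcases Nat.lt_or_ge B.card 2 with h2 | h2
  · have : (B.card : ℝ) ≤ 1 := by exact_mod_cast (by omega : B.card ≤ 1)
    have h0 : (0 : ℝ) ≤ B.card := Nat.cast_nonneg _
    nlinarith [mul_le_mul hN' hM (by norm_num) (by linarith)]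
  · have h3 := one_step B y N ⌊M⌋₊ hB (fun d hd => Nat.le_floor (h d hd))
    have h4 : (B.card : ℝ) * ((B.card : ℝ) - 1) ≤ 2 * N * ⌊M⌋₊ := by
      have h5 : ((B.card * (B.card - 1) : ℕ) : ℝ) ≤ ((2 * N * ⌊M⌋₊ : ℕ) : ℝ) := by exact_mod_cast h3
      rw [Nat.cast_mul, Nat.cast_sub (by omega)] at h5
      push_cast at h5
      exact h5
    have h6 : (⌊M⌋₊ : ℝ) ≤ M := Nat.floor_le (by linarith)
    have h7 : (2 : ℝ) ≤ B.card := by exact_mod_cast h2
    have h8 : 2 * (N : ℝ) * ⌊M⌋₊ ≤ 2 * N * M := mul_le_mul_of_nonneg_left h6 (by positivity)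
    nlinarith

/-- a set without many translates of a cube is thin -/
theorem cube_count : ∀ (k : ℕ) (A : Finset ℕ) (y N : ℕ) (M : ℝ), 1 ≤ M → 1 ≤ N →
    (∀ s ∈ A, y < s ∧ s ≤ y + N) →
    (∀ l : List ℕ, l.length = k → (∀ d ∈ l, 0 < d) → ((tr A l).card : ℝ) ≤ M) →
    (A.card : ℝ) ≤ 4 * N * (M / (4 * N)) ^ ((1 / 2 : ℝ) ^ k)
  | 0, A, y, N, M, hM, hN, hA, h => by
      have hN' : (1 : ℝ) ≤ N := by exact_mod_cast hN
      have h1 := h [] rfl (by simp)
      have h2 : tr A [] = A := by
        ext s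
        rw [mem_tr]
        simp [cube]
      rw [h2] at h1
      rw [pow_zero, Real.rpow_one]
      have : 4 * (N : ℝ) * (M / (4 * N)) = M := by field_simp
      rw [this]
      exact h1
  | k + 1, A, y, N, M, hM, hN, hA, h => by
      have hN' : (1 : ℝ) ≤ N := by exact_mod_cast hN
      have hN0 : (0 : ℝ) < 4 * N := by positivity
      have h1 : (1 : ℝ) ≤ Real.sqrt (4 * N * M) := by
        apply Real.le_sqrt_of_sq_le
        nlinarith [mul_le_mul hN' hM (by norm_num) (by linarith)]
      have h2 := cube_count k A y N (Real.sqrt (4 * N * M)) h1 hN hA (fun l hl hd => by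
        refine one_step' (tr A l) y N M hM hN (fun s hs => ?_) (fun d hd0 => ?_)
        · have := (mem_tr.1 hs) 0 (zero_mem_cube l)
          rw [add_zero] at this
          exact hA s this
        · have h3 := h (d :: l) (by rw [List.length_cons, hl]) (by
            intro e he
            rcases List.mem_cons.1 he with rfl | he
            · exact hd0
            · exact hd e he)
          refine le_trans ?_ h3
          have h4 : (tr A l).filter (fun s => s + d ∈ tr A l) ⊆ tr A (d :: l) := by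
            intro s hs
            rw [mem_filter] at hs
            exact mem_tr_cons.2 hs
          exact_mod_cast card_le_card h4)
      refine h2.trans (le_of_eq ?_)
      congr 1
      have h5 : Real.sqrt (4 * N * M) / (4 * N) = (M / (4 * N)) ^ (1 / 2 : ℝ) := by
        rw [← Real.sqrt_eq_rpow, Real.sqrt_div (by linarith), Real.sqrt_mul hN0.le]
        have h6 : Real.sqrt (4 * (N : ℝ)) ≠ 0 := (Real.sqrt_pos.2 hN0).ne'
        rw [div_eq_div_iff hN0.ne' h6]
        have h7 : Real.sqrt (4 * (N : ℝ)) * Real.sqrt (4 * N) = 4 * N := Real.mul_self_sqrt hN0.le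
        calc Real.sqrt (4 * (N : ℝ)) * Real.sqrt M * Real.sqrt (4 * N) =
            Real.sqrt M * (Real.sqrt (4 * (N : ℝ)) * Real.sqrt (4 * N)) := by ring
          _ = _ := by rw [h7]
      rw [h5, ← Real.rpow_mul (by positivity), pow_succ, mul_comm ((1 / 2 : ℝ) ^ k)]

end Pool.Agent.NH76.TT
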