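import Pool.Agent.NH76.TT.Ext

/-!
# The dichotomy
-/

set_option autoImplicit false

namespace Pool.Agent.NH76.TT

open Finset Polynomial Module
open Pool.Agent.H301R2.SSE (Lt Lt_log Lt_mul)

/-- a product of linear factors with algebraic roots has algebraic coefficients -/
theorem exists_lift : ∀ ρs : List ℂ, (∀ α ∈ ρs, IsAlgebraic ℚ α) →
    ∃ P' : QQ[X], P'.map (algebraMap QQ ℂ) = (ρs.map (fun α => X - C α)).prod
  | [], _ => ⟨1, by simp⟩
  | α :: ρs, h => by
      obtain ⟨P', hP'⟩ := exists_lift ρs (fun β hβ => h β (by simp [hβ]))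
      refine ⟨(X - C ⟨α, mem_QQ.2 (h α (by simp))⟩) * P', ?_⟩
      rw [Polynomial.map_mul, hP', List.map_cons, List.prod_cons, Polynomial.map_sub,
        Polynomial.map_X, Polynomial.map_C]
      rfl

theorem eval_prod_list (ρs : List ℂ) (z : ℂ) :
    ((ρs.map (fun α => X - C α)).prod : ℂ[X]).eval z = 0 ↔ z ∈ ρs := by
  induction ρs with
  | nil => simp
  | cons α ρs ih =>
    rw [List.map_cons, List.prod_cons, eval_mul, mul_eq_zero, ih, eval_sub, eval_X, eval_C,
      sub_eq_zero, List.mem_cons]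

theorem natDegree_prod_list (ρs : List ℂ) :
    ((ρs.map (fun α => X - C α)).prod : ℂ[X]).natDegree = ρs.length := by
  induction ρs with
  | nil => simp
  | cons α ρs ih =>
    have h : ((ρs.map (fun α => X - C α)).prod : ℂ[X]) ≠ 0 := by
      apply List.prod_ne_zero
      simp [X_sub_C_ne_zero]
    rw [List.map_cons, List.prod_cons, natDegree_mul (X_sub_C_ne_zero _) h, natDegree_X_sub_C, ih,
      List.length_cons, add_comm]

/-- the case of algebraic roots -/
theorem alg_case (ρs : List ℂ) (hρ : ∀ α ∈ ρs, IsAlgebraic ℚ α) (h0 : (0 : ℂ) ∉ ρs)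
    (hnd : NonDeg ((ρs.map (fun α => X - C α)).prod)) {F : ℕ → ℂ}
    (hF : F ∈ Rec ((ρs.map (fun α => X - C α)).prod)) {n0 : ℕ} (hn0 : F n0 ∉ Lt)
    (A0 : Finset ℕ) (hA0 : ∀ s ∈ A0, F s ∈ Lt) (L : List ℕ) (hL : ∀ d ∈ L, 0 < d)
    (hlen : ρs.length ≤ L.length + 1) : tr A0 L = ∅ := by
  obtain ⟨lam, hlam0, hlam⟩ := Submodule.exists_le_ker_of_notMem hn0
  obtain ⟨P', hP'⟩ := exists_lift ρs hρ
  set P : ℂ[X] := (ρs.map (fun α => X - C α)).prod with hP
  have hPd : P.natDegree = ρs.length := natDegree_prod_list ρs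
  have hP0 : P.eval 0 ≠ 0 := fun h => h0 ((eval_prod_list ρs 0).1 h)
  have hPne : P ≠ 0 := by
    rintro h
    rw [h, eval_zero] at hP0
    exact hP0 rfl
  have : NeZero P := ⟨hPne⟩
  have hcoef : ∀ k, P.coeff k = ((P'.coeff k : QQ) : ℂ) := by
    intro k
    rw [← hP', Polynomial.coeff_map]
    rfl
  set f : ℕ → ℂ := fun n => ((lam (F n) : QQ) : ℂ) with hf
  have hfR : f ∈ Rec P := by
    rw [mem_Rec_iff]
    intro n
    have h1 := mem_Rec_iff.1 hF n
    have h2 : lam (∑ k ∈ range (P.natDegree + 1), P.coeff k * F (n + k)) = 0 := by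
      rw [h1, map_zero]
    have h3 : ∀ k, P.coeff k * F (n + k) = (P'.coeff k : QQ) • F (n + k) := by
      intro k
      rw [hcoef]
      rfl
    simp only [h3, map_sum, map_smul, smul_eq_mul] at h2
    have h4 := congrArg (fun z : QQ => (z : ℂ)) h2
    rw [← QQ.coe_zero, ← h4]
    push_cast
    refine Finset.sum_congr rfl fun k _ => ?_
    rw [hcoef]
  have hf0 : f ≠ 0 := by
    intro h
    have h1 := congrFun h n0
    refine hlam0 ?_
    have h2 : ((lam (F n0) : QQ) : ℂ) = 0 := h1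
    exact_mod_cast h2
  have hK := K_bot hP0 hnd hfR hf0 L hL (by omega)
  rw [Finset.eq_empty_iff_forall_notMem]
  intro s hs
  have h1 : (E ^ s) f ∈ K P L := by
    refine ⟨E_pow_mem hfR s, fun i hi => ?_⟩
    rw [E_pow]
    have h2 : F (i + s) ∈ Lt := by
      rw [add_comm]
      exact hA0 _ ((mem_tr.1 hs) i hi)
    have h3 : lam (F (i + s)) = 0 := LinearMap.mem_ker.1 (hlam h2)
    simp only [hf, h3]
    rfl
  rw [hK, Submodule.mem_bot] at h1
  refine hf0 (coprime_kill (p := X ^ s) (q := P) ?_ ?_ (mem_Rec.1 hfR))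
  · refine coprime_of fun z hz hz2 => ?_
    rw [eval_pow, eval_X] at hz
    rw [eq_zero_of_pow_eq_zero hz] at hz2
    exact hP0 hz2
  · rw [map_pow, aeval_X]
    exact h1

open Classical in
/-- **The dichotomy.** -/
theorem dichotomy {q : ℂ[X]} (hq : q ≠ 0) (hq0 : q.eval 0 ≠ 0) (hnd : NonDeg q) {F : ℕ → ℂ}
    (hF : F ∈ Rec q) {n0 : ℕ} (hn0 : F n0 ∉ Lt) (y N : ℕ) (hN : 1 ≤ N) :
    (((Ioc y (y + N)).filter (fun n => F n ∈ Lt)).card : ℝ) ≤
      8 * (N : ℝ) ^ (1 - (1 / 2 : ℝ) ^ (2 * q.natDegree - 1)) := by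
  have hsp : q.Splits := IsAlgClosed.splits q
  set l1 : List ℂ := (q.roots.filter (fun α => IsAlgebraic ℚ α)).toList with hl1
  set l2 : List ℂ := (q.roots.filter (fun α => ¬ IsAlgebraic ℚ α)).toList with hl2
  set p : ℂ[X] := (l1.map (fun α => X - C α)).prod with hp
  set t : ℂ[X] := (l2.map (fun α => X - C α)).prod with ht
  have hfac : q = C q.leadingCoeff * (p * t) := by
    conv_lhs => rw [hsp.eq_prod_roots]
    congr 1
    conv_lhs => rw [← Multiset.filter_add_not (fun α => IsAlgebraic ℚ α) q.roots]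
    rw [Multiset.map_add, Multiset.prod_add]
    conv_lhs => rw [← Multiset.coe_toList (q.roots.filter (fun α => IsAlgebraic ℚ α)),
      ← Multiset.coe_toList (q.roots.filter (fun α => ¬ IsAlgebraic ℚ α))]
    rw [Multiset.map_coe, Multiset.prod_coe, Multiset.map_coe, Multiset.prod_coe]
  have hlc : q.leadingCoeff ≠ 0 := leadingCoeff_ne_zero.2 hq
  have hpt : F ∈ Rec (p * t) := by
    rw [mem_Rec] at hF ⊢
    rw [hfac, map_mul, aeval_C, Module.End.mul_apply, Module.algebraMap_end_apply] at hF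
    exact (smul_eq_zero.1 hF).resolve_left hlc
  have hpr : ∀ z, p.eval z = 0 → q.eval z = 0 ∧ IsAlgebraic ℚ z := by
    intro z hz
    have h1 := (eval_prod_list l1 z).1 hz
    rw [hl1, Multiset.mem_toList, Multiset.mem_filter, mem_roots hq] at h1
    exact h1
  have htr : ∀ z, t.eval z = 0 → q.eval z = 0 ∧ ¬ IsAlgebraic ℚ z := by
    intro z hz
    have h1 := (eval_prod_list l2 z).1 hz
    rw [hl2, Multiset.mem_toList, Multiset.mem_filter, mem_roots hq] at h1
    exact h1
  have hp0 : p.eval 0 ≠ 0 := fun h => hq0 (hpr 0 h).1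
  have ht0 : t.eval 0 ≠ 0 := fun h => hq0 (htr 0 h).1
  have hpne : p ≠ 0 := by
    intro h
    rw [h, eval_zero] at hp0
    exact hp0 rfl
  have htne : t ≠ 0 := by
    intro h
    rw [h, eval_zero] at ht0
    exact ht0 rfl
  have hdeg : p.natDegree + t.natDegree = q.natDegree := by
    conv_rhs => rw [hfac]
    rw [natDegree_C_mul hlc, natDegree_mul hpne htne]
  have hN' : (1 : ℝ) ≤ N := by exact_mod_cast hN
  by_cases hFp : F ∈ Rec p
  · set k := 2 * q.natDegree - 1 with hk
    refine le_trans ?_ (const_bound k N hN)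
    refine cube_count k _ y N (8 ^ k) (one_le_pow₀ (by norm_num)) hN ?_ ?_
    · intro s hs
      rw [mem_filter, mem_Ioc] at hs
      exact hs.1
    · intro l hl hd
      have h1 := alg_case l1 (fun α hα => (hpr α ((eval_prod_list l1 α).2 hα)).2)
        (fun h => hp0 ((eval_prod_list l1 0).2 h))
        (fun z w hz hw => hnd z w (hpr z hz).1 (hpr w hw).1) hFp hn0
        ((Ioc y (y + N)).filter (fun n => F n ∈ Lt)) (fun s hs => (mem_filter.1 hs).2) l hd (by
          have h2 : p.natDegree = l1.length := natDegree_prod_list l1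
          rw [← h2, hl]
          omega)
      rw [h1]
      simp only [card_empty, Nat.cast_zero]
      positivity
  · have h1 := main2 hpne (fun z hz => (hpr z hz).2) htne (fun z hz => (htr z hz).2)
      (fun z w hz hw => hnd z w (htr z hz).1 (htr w hw).1) hpt hFp y N hN
    refine h1.trans ?_
    refine mul_le_mul_of_nonneg_left ?_ (by norm_num)
    refine Real.rpow_le_rpow_of_exponent_le hN' ?_
    have h2 : (1 / 2 : ℝ) ^ (2 * q.natDegree - 1) ≤
        (1 / 2 : ℝ) ^ (p.natDegree + 2 * t.natDegree - 1) :=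
      pow_le_pow_of_le_one (by norm_num) (by norm_num) (by omega)
    linarith

end Pool.Agent.NH76.TT
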