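import Pool.Agent.NH76.TT.Bound

/-!
# Recurrences with some algebraic roots
-/

set_option autoImplicit false

namespace Pool.Agent.NH76.TT

open Finset Polynomial Module
open Pool.Agent.H301R2.SSE (Lt Lt_log Lt_mul)

theorem tr_append (A : Finset ℕ) (l : List ℕ) : ∀ l' : List ℕ, tr A (l' ++ l) ⊆ tr (tr A l) l'
  | [] => by
      intro s hs
      rw [List.nil_append] at hs
      rw [mem_tr]
      intro i hi
      have : i = 0 := by simpa [cube] using hi
      rw [this, add_zero]
      exact hs
  | d :: l' => by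
      intro s hs
      rw [List.cons_append, mem_tr_cons] at hs
      rw [mem_tr_cons]
      exact ⟨tr_append A l l' hs.1, tr_append A l l' hs.2⟩

theorem ext_bound {q : ℂ[X]} (hq : q ≠ 0) (ht : TrR q) (hnd : NonDeg q) : ∀ (ρs : List ℂ),
    (∀ α ∈ ρs, IsAlgebraic ℚ α) → ∀ (F : ℕ → ℂ),
    F ∈ Rec ((ρs.map (fun α => X - C α)).prod * q) →
    aeval E ((ρs.map (fun α => X - C α)).prod) F ≠ 0 → ∀ (A0 : Finset ℕ),
    (∀ s ∈ A0, F s ∈ Lt) → ∀ (L : List ℕ), L.length = ρs.length + (2 * q.natDegree - 1) →
    (∀ d ∈ L, 0 < d) → (tr A0 L).card ≤ 8 ^ (2 * q.natDegree - 1)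
  | [], _, F, hF, hF0, A0, hA0, L, hlen, hL => by
      rw [List.map_nil, List.prod_nil, one_mul] at hF
      rw [List.map_nil, List.prod_nil, map_one] at hF0
      rw [List.length_nil, zero_add] at hlen
      exact tr_bound hq ht hnd hF hF0 A0 hA0 L hlen hL
  | α :: ρs, hρ, F, hF, hF0, A0, hA0, L, hlen, hL => by
      rw [List.map_cons, List.prod_cons] at hF hF0
      set p' : ℂ[X] := (ρs.map (fun α => X - C α)).prod with hp'
      have hα : IsAlgebraic ℚ α := hρ α (by simp)
      have hLne : L ≠ [] := by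
        intro h
        rw [h, List.length_cons, List.length_nil] at hlen
        omega
      obtain ⟨L', d, rfl⟩ : ∃ L' d, L = L' ++ [d] := ⟨_, _, (List.dropLast_append_getLast hLne).symm⟩
      have hd : 0 < d := hL d (by simp)
      set F1 : ℕ → ℂ := aeval E (X ^ d - C (α ^ d) : ℂ[X]) F with hF1
      have hF1a : ∀ n, F1 n = F (n + d) - α ^ d * F n := by
        intro n
        rw [hF1, map_sub, map_pow, aeval_X, aeval_C, LinearMap.sub_apply,
          Module.algebraMap_end_apply, Pi.sub_apply, Pi.smul_apply, smul_eq_mul, E_pow]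
      obtain ⟨w, hw⟩ : (X - C α : ℂ[X]) ∣ X ^ d - C (α ^ d) := by
        rw [C_pow]
        exact sub_dvd_pow_sub_pow _ _ _
      refine le_trans (card_le_card (tr_append A0 [d] L'))
        (ext_bound hq ht hnd ρs (fun β hβ => hρ β (by simp [hβ])) F1 ?_ ?_ _ ?_ L' ?_ ?_)
      · rw [mem_Rec, hF1, ← Module.End.mul_apply, ← map_mul, hw,
          show p' * q * ((X - C α) * w) = w * ((X - C α) * p' * q) by ring, map_mul,
          Module.End.mul_apply, mem_Rec.1 hF, map_zero]
      · intro h0
        refine hF0 ?_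
        have hco : IsCoprime (X ^ d - C (α ^ d) : ℂ[X]) q := by
          refine coprime_of fun z hz hz2 => ht z hz2 ?_
          rw [eval_sub, eval_pow, eval_X, eval_C] at hz
          refine IsAlgebraic.of_pow hd ?_
          rw [sub_eq_zero.1 hz]
          exact hα.pow d
        refine coprime_kill hco ?_ ?_
        · rw [← Module.End.mul_apply, ← map_mul,
            show (X ^ d - C (α ^ d)) * ((X - C α) * p') = (X - C α) * (p' * (X ^ d - C (α ^ d))) by
              ring, map_mul, Module.End.mul_apply, map_mul, Module.End.mul_apply]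
          rw [hF1] at h0
          rw [h0, map_zero]
        · rw [← Module.End.mul_apply, ← map_mul, mul_comm]
          exact mem_Rec.1 hF
      · intro s hs
        rw [mem_tr] at hs
        have h1 : s ∈ A0 := by
          have := hs 0 (zero_mem_cube _)
          rwa [add_zero] at this
        have h2 : s + d ∈ A0 := hs d (by simp [cube])
        rw [hF1a]
        exact Lt.sub_mem (hA0 _ h2) (Lt_mul (hα.pow d) (hA0 _ h1))
      · rw [List.length_append, List.length_cons, List.length_nil, List.length_cons] at hlen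
        omega
      · intro e he
        exact hL e (by simp [he])

open Classical in
/-- **Main theorem**, with some algebraic roots. -/
theorem main2 {p q : ℂ[X]} (hp : p ≠ 0) (hpa : ∀ z : ℂ, p.eval z = 0 → IsAlgebraic ℚ z)
    (hq : q ≠ 0) (ht : TrR q) (hnd : NonDeg q) {F : ℕ → ℂ}
    (hF : F ∈ Rec (p * q)) (hF0 : F ∉ Rec p) (y N : ℕ) (hN : 1 ≤ N) :
    (((Ioc y (y + N)).filter (fun n => F n ∈ Lt)).card : ℝ) ≤
      8 * (N : ℝ) ^ (1 - (1 / 2 : ℝ) ^ (p.natDegree + 2 * q.natDegree - 1)) := by
  -- factorisation of `p`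
  have hsp : p.Splits := IsAlgClosed.splits p
  have hfac : p = C p.leadingCoeff * (p.roots.toList.map (fun α => X - C α)).prod := by
    conv_lhs => rw [hsp.eq_prod_roots]
    congr 1
    conv_lhs => rw [← Multiset.coe_toList p.roots]
    rw [Multiset.map_coe, Multiset.prod_coe]
  set P : ℂ[X] := (p.roots.toList.map (fun α => X - C α)).prod with hP
  have hlen : p.roots.toList.length = p.natDegree := by
    rw [Multiset.length_toList]
    exact hsp.natDegree_eq_card_roots.symm
  have hlc : p.leadingCoeff ≠ 0 := leadingCoeff_ne_zero.2 hp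
  have hunit : ∀ (r : ℂ[X]) (f : ℕ → ℂ), aeval E (C p.leadingCoeff * r) f = 0 → aeval E r f = 0 := by
    intro r f h
    rw [map_mul, aeval_C, Module.End.mul_apply, Module.algebraMap_end_apply] at h
    exact (smul_eq_zero.1 h).resolve_left hlc
  have hF' : F ∈ Rec (P * q) := by
    rw [mem_Rec] at hF ⊢
    refine hunit _ _ ?_
    rw [← mul_assoc, ← hfac]
    exact hF
  have hF0' : aeval E P F ≠ 0 := by
    intro h
    refine hF0 ?_
    rw [mem_Rec, hfac, map_mul, Module.End.mul_apply, h, map_zero]
  have hdeg : 1 ≤ q.natDegree := by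
    refine deg_pos hq (F := aeval E P F) ?_ hF0'
    rw [mem_Rec, ← Module.End.mul_apply, ← map_mul, mul_comm]
    exact mem_Rec.1 hF'
  set k := p.natDegree + 2 * q.natDegree - 1 with hk
  refine le_trans ?_ (const_bound k N hN)
  refine cube_count k _ y N (8 ^ k) (one_le_pow₀ (by norm_num)) hN ?_ ?_
  · intro s hs
    rw [mem_filter, mem_Ioc] at hs
    exact hs.1
  · intro l hl hd
    have h1 := ext_bound hq ht hnd p.roots.toList (fun α hα => hpa α (by
      rw [Multiset.mem_toList, mem_roots hp] at hα
      exact hα)) F hF' hF0' ((Ioc y (y + N)).filter (fun n => F n ∈ Lt))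
      (fun s hs => (mem_filter.1 hs).2) l (by rw [hlen, hl]; omega) hd
    have h2 : 8 ^ (2 * q.natDegree - 1) ≤ 8 ^ k := Nat.pow_le_pow_right (by norm_num) (by omega)
    exact_mod_cast h1.trans h2

end Pool.Agent.NH76.TT
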