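import Pool.Agent.NH76.TT.Bound
import Pool.Agent.H297R2.InBakerThm

/-!
# Products of towers
-/

set_option autoImplicit false

namespace Pool.Agent.NH76.TT

open Finset Polynomial Module
open Pool.Agent.H301R2.SSE (Lt Lt_log)

/-- Gelfond and Schneider -/
theorem gs {b β : ℝ} (hb : 0 < b) (hb1 : b ≠ 1) (hba : IsAlgebraic ℚ b) (hβ : IsAlgebraic ℚ β)
    (hβi : Irrational β) : Transcendental ℚ ((b ^ β : ℝ) : ℂ) := by
  intro hcon
  have hlog : Real.log b ≠ 0 := Real.log_ne_zero_of_pos_of_ne_one hb hb1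
  set l : ℂ := ((Real.log b : ℝ) : ℂ) with hl
  have hl0 : l ≠ 0 := Complex.ofReal_ne_zero.2 hlog
  let ω : Fin 2 → ℂ := ![l, (β : ℂ) * l]
  have h1 : ∀ i, IsAlgebraic ℚ (Complex.exp (ω i)) := by
    intro i
    fin_cases i
    · change IsAlgebraic ℚ (Complex.exp l)
      rw [hl, ← Complex.ofReal_exp, Real.exp_log hb]
      exact hba.algebraMap (A := ℂ)
    · change IsAlgebraic ℚ (Complex.exp ((β : ℂ) * l))
      rw [hl, ← Complex.ofReal_mul, ← Complex.ofReal_exp, mul_comm, ← Real.rpow_def_of_pos hb]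
      exact hcon
  have h2 : LinearIndependent ℚ ω := by
    rw [LinearIndependent.pair_iff]
    intro s t hst
    have h3 : ((s : ℂ) + (t : ℂ) * (β : ℂ)) * l = 0 := by
      have h4 : (s : ℚ) • l + (t : ℚ) • ((β : ℂ) * l) = 0 := hst
      rw [Algebra.smul_def, Algebra.smul_def] at h4
      simp only [eq_ratCast] at h4
      linear_combination h4
    have h5 := (mul_eq_zero.1 h3).resolve_right hl0
    have h6 : (s : ℝ) + (t : ℝ) * β = 0 := by exact_mod_cast h5
    have ht : t = 0 := by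
      by_contra ht
      have ht' : (t : ℝ) ≠ 0 := by exact_mod_cast ht
      refine hβi ⟨-s / t, ?_⟩
      push_cast
      field_simp
      linarith
    refine ⟨?_, ht⟩
    rw [ht] at h6
    simpa using h6
  have h7 := Pool.Agent.H297R2.baker_inhom ω h1 h2 0 isAlgebraic_zero ![-(β : ℂ), 1] (by
    intro i
    fin_cases i
    · exact (hβ.algebraMap (A := ℂ)).neg
    · exact isAlgebraic_one) (by
    rw [Fin.sum_univ_two]
    change 0 + (-(β : ℂ) * l + 1 * ((β : ℂ) * l)) = 0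
    ring)
  have h8 := h7.2 1
  exact one_ne_zero h8

/-- the characteristic polynomial of a sum of geometric sequences -/
theorem geo_sum {m : ℕ} (x : Fin m → ℂ) (v : Fin m → ℂ) :
    (fun n : ℕ => ∑ i, v i * x i ^ n) ∈ Rec (∏ i, (X - C (x i))) := by
  rw [mem_Rec_iff]
  intro n
  have h1 : ∀ i, ∑ k ∈ range ((∏ i, (X - C (x i)) : ℂ[X]).natDegree + 1),
      (∏ i, (X - C (x i)) : ℂ[X]).coeff k * x i ^ k = 0 := by
    intro i
    rw [← eval_eq_sum_range, eval_prod]
    exact Finset.prod_eq_zero (mem_univ i) (by simp)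
  calc ∑ k ∈ range ((∏ i, (X - C (x i)) : ℂ[X]).natDegree + 1),
      (∏ i, (X - C (x i)) : ℂ[X]).coeff k * ∑ i, v i * x i ^ (n + k)
      = ∑ i, v i * x i ^ n * ∑ k ∈ range ((∏ i, (X - C (x i)) : ℂ[X]).natDegree + 1),
          (∏ i, (X - C (x i)) : ℂ[X]).coeff k * x i ^ k := by
        simp only [Finset.mul_sum]
        rw [Finset.sum_comm]
        refine Finset.sum_congr rfl fun i _ => Finset.sum_congr rfl fun k _ => ?_
        rw [pow_add]
        ring
    _ = 0 := Finset.sum_eq_zero fun i _ => by rw [h1 i, mul_zero]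

theorem geo_ne {m : ℕ} (hm : 0 < m) (x : Fin m → ℂ) (hx : Function.Injective x) (v : Fin m → ℂ)
    (hv : ∀ i, v i ≠ 0) : (fun n : ℕ => ∑ i, v i * x i ^ n) ≠ 0 := by
  intro h
  have h1 : ∀ i, (fun n : ℕ => x i ^ n) ≠ 0 := fun i h2 => by
    have := congrFun h2 0
    simp at this
  have h2 : LinearIndependent ℂ (fun i : Fin m => (fun n : ℕ => x i ^ n)) := by
    refine Module.End.eigenvectors_linearIndependent' E x hx _ (fun i => ?_)
    rw [Module.End.hasEigenvector_iff]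
    refine ⟨?_, h1 i⟩
    rw [Module.End.mem_eigenspace_iff]
    funext n
    change x i ^ (n + 1) = x i * x i ^ n
    rw [pow_succ, mul_comm]
  have h3 := Fintype.linearIndependent_iff.1 h2 v (by
    rw [← h]
    funext n
    rw [Finset.sum_apply]
    rfl) ⟨0, hm⟩
  exact hv _ h3

open Classical in
/-- products of towers -/
theorem towers (m : ℕ) (hm : 0 < m) (v : Fin m → ℂ) (hv : ∀ i, v i ≠ 0) (b β : Fin m → ℝ)
    (hb : ∀ i, 0 < b i) (hb1 : ∀ i, b i ≠ 1) (hba : ∀ i, IsAlgebraic ℚ (b i))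
    (hβ : ∀ i, IsAlgebraic ℚ (β i)) (hβi : ∀ i, Irrational (β i))
    (hinj : Function.Injective (fun i => b i ^ β i)) (y N : ℕ) (hN : 1 ≤ N) :
    (((Ioc y (y + N)).filter (fun n : ℕ =>
      ∑ i, v i * ((b i ^ (β i * n) : ℝ) : ℂ) ∈ Lt)).card : ℝ) ≤
      8 * (N : ℝ) ^ (1 - (1 / 2 : ℝ) ^ (2 * m - 1)) := by
  set x : Fin m → ℂ := fun i => ((b i ^ β i : ℝ) : ℂ) with hx
  set q : ℂ[X] := ∏ i, (X - C (x i)) with hq
  have hq0 : q ≠ 0 := Finset.prod_ne_zero_iff.2 fun i _ => X_sub_C_ne_zero _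
  have hdeg : q.natDegree = m := by
    rw [hq, natDegree_prod_of_monic _ _ (fun i _ => monic_X_sub_C _)]
    simp
  have hroot : ∀ z : ℂ, q.eval z = 0 → ∃ i, z = x i := by
    intro z hz
    rw [hq, eval_prod, Finset.prod_eq_zero_iff] at hz
    obtain ⟨i, -, hi⟩ := hz
    rw [eval_sub, eval_X, eval_C] at hi
    exact ⟨i, sub_eq_zero.1 hi⟩
  have ht : TrR q := by
    intro z hz
    obtain ⟨i, rfl⟩ := hroot z hz
    exact gs (hb i) (hb1 i) (hba i) (hβ i) (hβi i)
  have hnd : NonDeg q := by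
    intro z w hz hw d hd hzw
    obtain ⟨i, rfl⟩ := hroot z hz
    obtain ⟨j, rfl⟩ := hroot w hw
    have h1 : (b i ^ β i : ℝ) ^ d = (b j ^ β j : ℝ) ^ d := by
      simp only [hx] at hzw
      exact_mod_cast hzw
    have h2 := (pow_left_inj₀ (Real.rpow_nonneg (hb i).le _) (Real.rpow_nonneg (hb j).le _)
      hd.ne').1 h1
    simp only [hx]
    rw [h2]
  have hxinj : Function.Injective x := by
    intro i j hij
    simp only [hx] at hij
    exact hinj (Complex.ofReal_injective hij)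
  have h3 := main hq0 ht hnd (geo_sum x v) (geo_ne hm x hxinj v hv) y N hN
  rw [hdeg] at h3
  refine le_trans ?_ h3
  have h4 : ∀ n : ℕ, ∑ i, v i * ((b i ^ (β i * n) : ℝ) : ℂ) = ∑ i, v i * x i ^ n := by
    intro n
    refine Finset.sum_congr rfl fun i _ => ?_
    rw [Real.rpow_mul (hb i).le, Real.rpow_natCast]
    simp only [hx]
    push_cast
    rfl
  simp only [h4]
  exact le_rfl

end Pool.Agent.NH76.TT
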