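import Pool.Agent.NH76.TT.Tower
import Pool.Agent.NH76.TT.Ext

/-!
# Products of towers with an exponential of a polynomial
-/

set_option autoImplicit false

namespace Pool.Agent.NH76.TT

open Finset Polynomial Module
open Pool.Agent.H301R2.SSE (Lt Lt_log Lt_mul)

theorem diff_iter (k : ℕ) : ∀ g : ℂ → ℂ, aeval E ((X - C 1 : ℂ[X]) ^ k) (fun n : ℕ => g n) =
    fun n : ℕ => ((fwdDiff (1 : ℂ))^[k] g) n := by
  induction k with
  | zero =>
    intro g
    rw [pow_zero, map_one]
    rfl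
  | succ k ih =>
    intro g
    rw [pow_succ, map_mul, Module.End.mul_apply]
    have h1 : aeval E (X - C 1 : ℂ[X]) (fun n : ℕ => g n) = fun n : ℕ => (fwdDiff (1 : ℂ) g) n := by
      funext n
      rw [map_sub, aeval_X, aeval_C, LinearMap.sub_apply, Module.algebraMap_end_apply,
        Pi.sub_apply, Pi.smul_apply, one_smul, fwdDiff]
      change g ((n + 1 : ℕ) : ℂ) - g n = _
      push_cast
      rfl
    rw [h1, ih, Function.iterate_succ_apply]

theorem poly_rec (P : ℂ[X]) (e : ℕ) (hP : P.degree < e) :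
    (fun n : ℕ => P.eval (n : ℂ)) ∈ Rec ((X - C 1 : ℂ[X]) ^ e) := by
  rcases Nat.eq_zero_or_pos e with rfl | he
  · have : P = 0 := by
      by_contra h
      exact absurd (lt_of_le_of_lt (zero_le_degree_iff.2 h) hP) (by simp)
    rw [this]
    simp only [eval_zero]
    exact Submodule.zero_mem _
  · rw [mem_Rec, diff_iter e (fun z => P.eval z)]
    have h1 : P.natDegree < e := by
      rcases eq_or_ne P 0 with h | h
      · rw [h, natDegree_zero]
        exact he
      · exact (natDegree_lt_iff_degree_lt h).2 hP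
    have h2 := Polynomial.fwdDiff_iter_eq_zero_of_degree_lt h1
    funext n
    exact congrFun h2 n

open Classical in
/-- products of towers and an exponential of a polynomial -/
theorem towers2 (e m : ℕ) (P : ℂ[X]) (hP : P.degree < e) (hm : 0 < m) (v : Fin m → ℂ)
    (hv : ∀ i, v i ≠ 0) (b β : Fin m → ℝ)
    (hb : ∀ i, 0 < b i) (hb1 : ∀ i, b i ≠ 1) (hba : ∀ i, IsAlgebraic ℚ (b i))
    (hβ : ∀ i, IsAlgebraic ℚ (β i)) (hβi : ∀ i, Irrational (β i))
    (hinj : Function.Injective (fun i => b i ^ β i)) (y N : ℕ) (hN : 1 ≤ N) :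
    (((Ioc y (y + N)).filter (fun n : ℕ =>
      P.eval (n : ℂ) + ∑ i, v i * ((b i ^ (β i * n) : ℝ) : ℂ) ∈ Lt)).card : ℝ) ≤
      8 * (N : ℝ) ^ (1 - (1 / 2 : ℝ) ^ (e + 2 * m - 1)) := by
  set x : Fin m → ℂ := fun i => ((b i ^ β i : ℝ) : ℂ) with hx
  set q : ℂ[X] := ∏ i, (X - C (x i)) with hq
  have hq0 : q ≠ 0 := Finset.prod_ne_zero_iff.2 fun i _ => X_sub_C_ne_zero _
  have hdeg : q.natDegree = m := by
    rw [hq, natDegree_prod_of_monic _ _ (fun i _ => monic_X_sub_C _)]
    simp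
  have hroot : ∀ z : ℂ, q.eval z = 0 → ∃ i, z = x i := by
    intro z hz
    rw [hq, eval_prod, Finset.prod_eq_zero_iff] at hz
    obtain ⟨i, -, hi⟩ := hz
    rw [eval_sub, eval_X, eval_C] at hi
    exact ⟨i, sub_eq_zero.1 hi⟩
  have ht : TrR q := by
    intro z hz
    obtain ⟨i, rfl⟩ := hroot z hz
    exact gs (hb i) (hb1 i) (hba i) (hβ i) (hβi i)
  have hnd : NonDeg q := by
    intro z w hz hw d hd hzw
    obtain ⟨i, rfl⟩ := hroot z hz
    obtain ⟨j, rfl⟩ := hroot w hw
    have h1 : (b i ^ β i : ℝ) ^ d = (b j ^ β j : ℝ) ^ d := by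
      simp only [hx] at hzw
      exact_mod_cast hzw
    have h2 := (pow_left_inj₀ (Real.rpow_nonneg (hb i).le _) (Real.rpow_nonneg (hb j).le _)
      hd.ne').1 h1
    simp only [hx]
    rw [h2]
  have hxinj : Function.Injective x := by
    intro i j hij
    simp only [hx] at hij
    exact hinj (Complex.ofReal_injective hij)
  set p : ℂ[X] := (X - C 1) ^ e with hp
  have hp0 : p ≠ 0 := pow_ne_zero _ (X_sub_C_ne_zero _)
  have hpd : p.natDegree = e := by
    rw [hp, natDegree_pow, natDegree_X_sub_C, mul_one]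
  have hpa : ∀ z : ℂ, p.eval z = 0 → IsAlgebraic ℚ z := by
    intro z hz
    rw [hp, eval_pow, eval_sub, eval_X, eval_C] at hz
    have h1 := sub_eq_zero.1 (eq_zero_of_pow_eq_zero hz)
    rw [h1]
    exact isAlgebraic_one
  set G1 : ℕ → ℂ := fun n => P.eval (n : ℂ) with hG1
  set G2 : ℕ → ℂ := fun n => ∑ i, v i * x i ^ n with hG2
  have h1 : G1 ∈ Rec p := poly_rec P e hP
  have h2 : G2 ∈ Rec q := geo_sum x v
  have h2' : G2 ≠ 0 := geo_ne hm x hxinj v hv
  have hF : G1 + G2 ∈ Rec (p * q) := by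
    refine Submodule.add_mem _ ?_ ?_
    · rw [mem_Rec, mul_comm, map_mul, Module.End.mul_apply, mem_Rec.1 h1, map_zero]
    · rw [mem_Rec, map_mul, Module.End.mul_apply, mem_Rec.1 h2, map_zero]
  have hF0 : G1 + G2 ∉ Rec p := by
    intro h
    have h3 : G2 ∈ Rec p := by
      have := Submodule.sub_mem _ h h1
      rwa [add_sub_cancel_left] at this
    refine h2' (coprime_kill (p := p) (q := q) ?_ (mem_Rec.1 h3) (mem_Rec.1 h2))
    exact coprime_of fun z hz hz2 => ht z hz2 (hpa z hz)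
  have h3 := main2 hp0 hpa hq0 ht hnd hF hF0 y N hN
  rw [hdeg, hpd] at h3
  refine le_trans ?_ h3
  have h4 : ∀ n : ℕ, P.eval (n : ℂ) + ∑ i, v i * ((b i ^ (β i * n) : ℝ) : ℂ) = (G1 + G2) n := by
    intro n
    rw [Pi.add_apply]
    congr 1
    refine Finset.sum_congr rfl fun i _ => ?_
    rw [Real.rpow_mul (hb i).le, Real.rpow_natCast]
    simp only [hx]
    push_cast
    rfl
  simp only [h4]
  exact le_rfl

end Pool.Agent.NH76.TT
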